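import Pool.Agent.Helper36.RN.GoalsG

/-!
# Packet BIA: the two Bianchi identities with torsion
-/

namespace Pool.Agent.Helper20.RN

open Pool.Agent.Helper47.RFn Pool.Agent.Helper36.RN

section Abstract

variable {ι 𝒜 R : Type} [CommRing 𝒜] [Ring R] [Algebra 𝒜 R]

/-- derivations of a ring over derivations of its scalars -/
structure DR (δ : ι → 𝒜 → 𝒜) (E : ι → R → R) (n0 : ι → 𝒜) : Prop where
  add : ∀ i x y, E i (x + y) = E i x + E i y
  sub : ∀ i x y, E i (x - y) = E i x - E i y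
  mul : ∀ i x y, E i (x * y) = E i x * y + x * E i y
  smul : ∀ i (a : 𝒜) x, E i (a • x) = δ i a • x + a • E i x
  comm : ∀ i j x, E i (E j x) - E j (E i x) = n0 i • E j x - n0 j • E i x
  symm : ∀ i j, δ i (n0 j) = δ j (n0 i)

/-- curvature -/
def aF (E : ι → R → R) (n0 : ι → 𝒜) (W : ι → R) (i j : ι) : R :=
  E i (W j) - E j (W i) + (W j * W i - W i * W j) - (n0 i • W j - n0 j • W i)

/-- torsion -/
def aT (E : ι → R → R) (n0 : ι → 𝒜) (Θ W : ι → R) (i j : ι) : R :=
  E i (Θ j) - E j (Θ i) + (Θ j * W i - Θ i * W j) - (n0 i • Θ j - n0 j • Θ i)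

theorem bianchi1 {δ : ι → 𝒜 → 𝒜} {E : ι → R → R} {n0 : ι → 𝒜} (h : DR δ E n0) (Θ W : ι → R) (i j k : ι) :
    (E i (aT E n0 Θ W j k) + aT E n0 Θ W j k * W i) + (E j (aT E n0 Θ W k i) + aT E n0 Θ W k i * W j)
      + (E k (aT E n0 Θ W i j) + aT E n0 Θ W i j * W k)
      - (2 : 𝒜) • (n0 i • aT E n0 Θ W j k + n0 j • aT E n0 Θ W k i + n0 k • aT E n0 Θ W i j) =
    Θ i * aF E n0 W j k + Θ j * aF E n0 W k i + Θ k * aF E n0 W i j := by
  have h1 := h.comm i j (Θ k)
  have h2 := h.comm j k (Θ i)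
  have h3 := h.comm k i (Θ j)
  have s1 := h.symm i j
  have s2 := h.symm j k
  have s3 := h.symm k i
  linear_combination (norm := skip) h1 + h2 + h3
  simp only [aT, aF, h.add, h.sub, h.mul, h.smul, s1, s2, s3, mul_add, add_mul, mul_sub, sub_mul,
    smul_mul_assoc, mul_smul_comm, mul_assoc, smul_add, smul_sub]
  module

theorem bianchi2 {δ : ι → 𝒜 → 𝒜} {E : ι → R → R} {n0 : ι → 𝒜} (h : DR δ E n0) (W : ι → R) (i j k : ι) :
    (E i (aF E n0 W j k) + (aF E n0 W j k * W i - W i * aF E n0 W j k))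
      + (E j (aF E n0 W k i) + (aF E n0 W k i * W j - W j * aF E n0 W k i))
      + (E k (aF E n0 W i j) + (aF E n0 W i j * W k - W k * aF E n0 W i j))
      - (2 : 𝒜) • (n0 i • aF E n0 W j k + n0 j • aF E n0 W k i + n0 k • aF E n0 W i j) = 0 := by
  have h1 := h.comm i j (W k)
  have h2 := h.comm j k (W i)
  have h3 := h.comm k i (W j)
  have s1 := h.symm i j
  have s2 := h.symm j k
  have s3 := h.symm k i
  linear_combination (norm := skip) h1 + h2 + h3
  simp only [aF, h.add, h.sub, h.mul, h.smul, s1, s2, s3, mul_add, add_mul, mul_sub, sub_mul,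
    smul_mul_assoc, mul_smul_comm, mul_assoc, smul_add, smul_sub]
  module

end Abstract

section Mat

variable {n : ℕ} {𝒜 : Type} [CommRing 𝒜] [Algebra ℝ 𝒜] {e : Ix n → Derivation ℝ 𝒜 𝒜} {n0 : Ix n → 𝒜}

/-- entrywise derivation -/
def mE (e : Ix n → Derivation ℝ 𝒜 𝒜) (i : Ix n) (X : Matrix (Ix n) (Ix n) 𝒜) : Matrix (Ix n) (Ix n) 𝒜 :=
  Matrix.of fun r c => e i (X r c)

theorem dr (h : BH e n0) : DR (ι := Ix n) (R := Matrix (Ix n) (Ix n) 𝒜) (fun i a => e i a) (mE e) n0 where
  add := fun i x y => by ext r c; simp [mE]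
  sub := fun i x y => by ext r c; simp [mE]
  mul := fun i x y => by
    ext r c
    simp only [mE, Matrix.of_apply, Matrix.mul_apply, map_sum, Derivation.leibniz, Matrix.add_apply, smul_eq_mul]
    rw [← Finset.sum_add_distrib]
    refine Finset.sum_congr rfl fun b _ => ?_
    ring
  smul := fun i a x => by
    ext r c
    simp only [mE, Matrix.of_apply, Matrix.smul_apply, Matrix.add_apply, Derivation.leibniz, smul_eq_mul]
    ring
  comm := fun i j x => by
    ext r c
    simp only [mE, Matrix.of_apply, Matrix.smul_apply, Matrix.sub_apply, smul_eq_mul]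
    exact h.ee i j (x r c)
  symm := fun i j => by
    rw [h.en, h.en]
    by_cases hij : i = j
    · subst hij; rfl
    · rw [if_neg hij, if_neg (fun h' => hij h'.symm)]; ring

/-- the connection as matrices -/
def mW (w : Ix n → Ix n → Ix n → 𝒜) (i : Ix n) : Matrix (Ix n) (Ix n) 𝒜 := Matrix.of fun c d => w i c d

/-- the coframe as matrices with equal rows -/
def mθ (θ : Ix n → Ix n → 𝒜) (i : Ix n) : Matrix (Ix n) (Ix n) 𝒜 := Matrix.of fun _ c => θ i c

theorem mF_apply (w : Ix n → Ix n → Ix n → 𝒜) (i j c d : Ix n) :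
    aF (mE e) n0 (mW w) i j c d = TC.F e n0 w i j c d := by
  simp only [aF, TC.F, mE, mW, Matrix.of_apply, Matrix.sub_apply, Matrix.add_apply, Matrix.smul_apply,
    Matrix.mul_apply, smul_eq_mul, Finset.sum_sub_distrib]

theorem mT_apply (θ : Ix n → Ix n → 𝒜) (w : Ix n → Ix n → Ix n → 𝒜) (i j r c : Ix n) :
    aT (mE e) n0 (mθ θ) (mW w) i j r c = TC.T e n0 θ w i j c := by
  simp only [aT, TC.T, mE, mW, mθ, Matrix.of_apply, Matrix.sub_apply, Matrix.add_apply, Matrix.smul_apply,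
    Matrix.mul_apply, smul_eq_mul, Finset.sum_sub_distrib]

theorem sum_rot {M : Type} [AddCommMonoid M] (f : Ix n → Ix n → Ix n → M) :
    ∑ i, ∑ j, ∑ k, f i j k = ∑ j, ∑ k, ∑ i, f i j k := by
  rw [Finset.sum_comm]
  refine Finset.sum_congr rfl fun j _ => ?_
  rw [Finset.sum_comm]

theorem tri1 {A θ : Ix n → Ix n → 𝒜} (hA : ∀ a b, ∑ i, A a i * θ i b = if a = b then 1 else 0)
    (G : Ix n → Ix n → Ix n → 𝒜) (p a b : Ix n) :
    ∑ i, ∑ j, ∑ k, A p i * A a j * A b k * ∑ q, θ i q * G j k q = ∑ j, ∑ k, A a j * A b k * G j k p := by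
  rw [sum_rot]
  refine Finset.sum_congr rfl fun j _ => Finset.sum_congr rfl fun k _ => ?_
  have h1 : ∀ i, A p i * A a j * A b k * ∑ q, θ i q * G j k q
      = ∑ q, A a j * A b k * ((A p i * θ i q) * G j k q) := by
    intro i
    rw [Finset.mul_sum]
    refine Finset.sum_congr rfl fun q _ => ?_
    ring
  rw [Finset.sum_congr rfl fun i _ => h1 i, Finset.sum_comm]
  have h2 : ∀ q, ∑ i, A a j * A b k * ((A p i * θ i q) * G j k q)
      = if p = q then A a j * A b k * G j k q else 0 := by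
    intro q
    rw [← Finset.mul_sum, ← Finset.sum_mul, hA p q]
    split_ifs <;> ring
  rw [Finset.sum_congr rfl fun q _ => h2 q, Finset.sum_ite_eq, if_pos (Finset.mem_univ _)]

theorem cdg_T (A θ : Ix n → Ix n → 𝒜) (w : Ix n → Ix n → Ix n → 𝒜) (p a b c : Ix n) :
    TC.cdg e A w (fun i c f => - w i c f) (fun i j c => TC.T e n0 θ w i j c) p a b c
      = TC.cd3 e A w p (TC.ta e n0 A θ w) a b c := by
  have h1 : ∀ a b c, TC.fr2 A (fun i j c => TC.T e n0 θ w i j c) a b c = TC.ta e n0 A θ w a b c :=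
    fun a b c => rfl
  have h2 : ∑ i, ∑ β, A p i * (- w i c β) * TC.ta e n0 A θ w a b β
      = - ∑ f, TC.Ga A w p c f * TC.ta e n0 A θ w a b f := by
    rw [Finset.sum_comm, ← Finset.sum_neg_distrib]
    refine Finset.sum_congr rfl fun f _ => ?_
    rw [TC.Ga, Finset.sum_mul, ← Finset.sum_neg_distrib]
    refine Finset.sum_congr rfl fun i _ => ?_
    ring
  unfold TC.cdg TC.cd3
  simp only [h1]
  rw [h2]
  simp only [Finset.sum_add_distrib]
  ring

/-- coefficients for pairs of indices -/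
def m2 (w : Ix n → Ix n → Ix n → 𝒜) (i : Ix n) (x y : Ix n × Ix n) : 𝒜 :=
  - (if x.2 = y.2 then w i x.1 y.1 else 0) - (if x.1 = y.1 then w i x.2 y.2 else 0)

theorem m2_sum (w : Ix n → Ix n → Ix n → 𝒜) (i c d : Ix n) (X : Ix n × Ix n → 𝒜) :
    ∑ y, m2 w i (c, d) y * X y = - ∑ f, w i c f * X (f, d) - ∑ f, w i d f * X (c, f) := by
  rw [Fintype.sum_prod_type]
  simp only [m2, sub_mul, neg_mul, Finset.sum_sub_distrib, Finset.sum_neg_distrib, ite_mul, zero_mul,
    Finset.sum_ite_eq, Finset.mem_univ, if_true]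
  rw [Finset.sum_comm (f := fun x y => if c = x then w i d y * X (x, y) else 0)]
  simp only [Finset.sum_ite_eq, Finset.mem_univ, if_true]

theorem cdg_F (A : Ix n → Ix n → 𝒜) (w : Ix n → Ix n → Ix n → 𝒜) (p a b c d : Ix n) :
    TC.cdg e A w (m2 w) (fun i j x => TC.F e n0 w i j x.1 x.2) p a b (c, d)
      = TC.cd4 e A w p (TC.K e n0 A w) a b c d := by
  have h1 : ∀ a b (x : Ix n × Ix n), TC.fr2 A (fun i j x => TC.F e n0 w i j x.1 x.2) a b x = TC.K e n0 A w a b x.1 x.2 :=
    fun a b c => rfl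
  have h2 : ∑ i, ∑ β, A p i * m2 w i (c, d) β * TC.K e n0 A w a b β.1 β.2
      = - ∑ f, TC.Ga A w p c f * TC.K e n0 A w a b f d - ∑ f, TC.Ga A w p d f * TC.K e n0 A w a b c f := by
    have h3 : ∀ i, ∑ β, A p i * m2 w i (c, d) β * TC.K e n0 A w a b β.1 β.2
        = - ∑ f, A p i * (w i c f * TC.K e n0 A w a b f d) - ∑ f, A p i * (w i d f * TC.K e n0 A w a b c f) := by
      intro i
      simp only [mul_assoc]
      rw [← Finset.mul_sum, m2_sum w i c d (fun x => TC.K e n0 A w a b x.1 x.2)]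
      simp only [← Finset.mul_sum]
      ring
    rw [Finset.sum_congr rfl fun i _ => h3 i, Finset.sum_sub_distrib, Finset.sum_neg_distrib,
      Finset.sum_comm, Finset.sum_comm (f := fun i f => A p i * (w i d f * TC.K e n0 A w a b c f))]
    simp only [TC.Ga, Finset.sum_mul, mul_assoc]
  unfold TC.cdg TC.cd4
  simp only [h1]
  rw [h2]
  simp only [Finset.sum_add_distrib]
  ring

theorem gD_T {w : Ix n → Ix n → Ix n → 𝒜} (hw : ∀ i c d, w i c d = - w i d c) (θ : Ix n → Ix n → 𝒜)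
    (i j k c : Ix n) :
    TC.gD e (fun i c f => - w i c f) i (fun c => TC.T e n0 θ w j k c) c
      = (mE e i (aT (mE e) n0 (mθ θ) (mW w) j k) + aT (mE e) n0 (mθ θ) (mW w) j k * mW w i) c c := by
  rw [Matrix.add_apply, Matrix.mul_apply]
  unfold TC.gD
  congr 1
  · rw [mE, Matrix.of_apply, mT_apply]
  · refine Finset.sum_congr rfl fun f _ => ?_
    rw [mT_apply, mW, Matrix.of_apply, hw i f c]
    ring

theorem gD_F {w : Ix n → Ix n → Ix n → 𝒜} (hw : ∀ i c d, w i c d = - w i d c) (i j k c d : Ix n) :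
    TC.gD e (m2 w) i (fun x => TC.F e n0 w j k x.1 x.2) (c, d)
      = (mE e i (aF (mE e) n0 (mW w) j k) + (aF (mE e) n0 (mW w) j k * mW w i
        - mW w i * aF (mE e) n0 (mW w) j k)) c d := by
  rw [Matrix.add_apply, Matrix.sub_apply, Matrix.mul_apply, Matrix.mul_apply]
  unfold TC.gD
  rw [m2_sum w i c d (fun x => TC.F e n0 w j k x.1 x.2), mE, Matrix.of_apply, mF_apply]
  have h1 : ∑ f, aF (mE e) n0 (mW w) j k c f * mW w i f d = - ∑ f, w i d f * TC.F e n0 w j k c f := by
    rw [← Finset.sum_neg_distrib]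
    refine Finset.sum_congr rfl fun f _ => ?_
    rw [mF_apply, mW, Matrix.of_apply, hw i f d]
    ring
  have h2 : ∑ f, mW w i c f * aF (mE e) n0 (mW w) j k f d = ∑ f, w i c f * TC.F e n0 w j k f d := by
    refine Finset.sum_congr rfl fun f _ => ?_
    rw [mF_apply, mW, Matrix.of_apply]
  rw [h1, h2]
  ring

end Mat

/-- BIA -/
theorem bia : G_BIA := by
  intro hANT hCNV n 𝒜 _ _ e n0 A θ w hB hC
  obtain ⟨hF1, -, -, -, -, -, hT1, -⟩ := hANT n 𝒜 e n0 A θ w hC.anti
  have hdr := dr hB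
  refine ⟨fun p a b c => ?_, fun p a b c d => ?_⟩
  · have h := hCNV n 𝒜 e n0 A θ w (Ix n) (fun i c f => - w i c f) (fun i j c => TC.T e n0 θ w i j c)
      hC hT1 p a b c
    simp only [cdg_T] at h
    have hfr : ∀ a b c, TC.fr2 A (fun i j c => TC.T e n0 θ w i j c) a b c = TC.ta e n0 A θ w a b c :=
      fun a b c => rfl
    simp only [hfr] at h
    rw [h]
    have hpt : ∀ i j k, TC.gD e (fun i c f => - w i c f) i (fun c => TC.T e n0 θ w j k c) c
        + TC.gD e (fun i c f => - w i c f) j (fun c => TC.T e n0 θ w k i c) c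
        + TC.gD e (fun i c f => - w i c f) k (fun c => TC.T e n0 θ w i j c) c
        - 2 * (n0 i * TC.T e n0 θ w j k c + n0 j * TC.T e n0 θ w k i c + n0 k * TC.T e n0 θ w i j c)
        = ∑ q, θ i q * TC.F e n0 w j k q c + ∑ q, θ j q * TC.F e n0 w k i q c
          + ∑ q, θ k q * TC.F e n0 w i j q c := by
      intro i j k
      have hb := congrFun (congrFun (bianchi1 hdr (mθ θ) (mW w) i j k) c) c
      rw [gD_T hC.anti, gD_T hC.anti, gD_T hC.anti]
      simp only [Matrix.add_apply, Matrix.sub_apply, Matrix.smul_apply, smul_eq_mul, mT_apply] at hb ⊢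
      rw [hb]
      simp only [Matrix.mul_apply, mF_apply, mθ, Matrix.of_apply]
    have hsum : ∑ i, ∑ j, ∑ k, A p i * A a j * A b k *
        (TC.gD e (fun i c f => - w i c f) i (fun c => TC.T e n0 θ w j k c) c
        + TC.gD e (fun i c f => - w i c f) j (fun c => TC.T e n0 θ w k i c) c
        + TC.gD e (fun i c f => - w i c f) k (fun c => TC.T e n0 θ w i j c) c
        - 2 * (n0 i * TC.T e n0 θ w j k c + n0 j * TC.T e n0 θ w k i c + n0 k * TC.T e n0 θ w i j c))
        = TC.X4 e n0 A w p a b c := by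
      rw [Finset.sum_congr rfl fun i _ => Finset.sum_congr rfl fun j _ => Finset.sum_congr rfl fun k _ =>
        congrArg (fun z => A p i * A a j * A b k * z) (hpt i j k)]
      simp only [mul_add, Finset.sum_add_distrib]
      rw [tri1 hC.At (fun j k q => TC.F e n0 w j k q c) p a b]
      have t2 : ∑ i, ∑ j, ∑ k, A p i * A a j * A b k * ∑ q, θ j q * TC.F e n0 w k i q c
          = TC.K e n0 A w b p a c := by
        rw [sum_rot]
        refine Eq.trans ?_ (tri1 hC.At (fun j k q => TC.F e n0 w j k q c) a b p)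
        refine Finset.sum_congr rfl fun j _ => Finset.sum_congr rfl fun k _ => Finset.sum_congr rfl fun i _ => ?_
        ring
      have t3 : ∑ i, ∑ j, ∑ k, A p i * A a j * A b k * ∑ q, θ k q * TC.F e n0 w i j q c
          = TC.K e n0 A w p a b c := by
        rw [sum_rot, sum_rot]
        refine Eq.trans ?_ (tri1 hC.At (fun j k q => TC.F e n0 w j k q c) b p a)
        refine Finset.sum_congr rfl fun j _ => Finset.sum_congr rfl fun k _ => Finset.sum_congr rfl fun i _ => ?_
        ring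
      rw [t2, t3]
      unfold TC.X4 TC.K
      ring
    exact hsum.symm
  · have h := hCNV n 𝒜 e n0 A θ w (Ix n × Ix n) (m2 w) (fun i j x => TC.F e n0 w i j x.1 x.2)
      hC (fun i j x => hF1 i j x.1 x.2) p a b (c, d)
    simp only [cdg_F] at h
    have hfr : ∀ a b (x : Ix n × Ix n), TC.fr2 A (fun i j x => TC.F e n0 w i j x.1 x.2) a b x = TC.K e n0 A w a b x.1 x.2 :=
      fun a b c => rfl
    simp only [hfr] at h
    rw [h]
    refine Finset.sum_eq_zero fun i _ => Finset.sum_eq_zero fun j _ => Finset.sum_eq_zero fun k _ => ?_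
    have hb := congrFun (congrFun (bianchi2 hdr (mW w) i j k) c) d
    rw [gD_F hC.anti, gD_F hC.anti, gD_F hC.anti]
    simp only [Matrix.add_apply, Matrix.sub_apply, Matrix.smul_apply, smul_eq_mul, mF_apply,
      Matrix.zero_apply] at hb ⊢
    rw [hb, mul_zero]

end Pool.Agent.Helper20.RN
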