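import Pool.Agent.Helper36.RN.Goals

/-!
# Packet QF1: Lipschitz estimate with loss of derivatives (general dimension)
-/

namespace Pool.Agent.Helper20.RN

open Set Filter Topology MeasureTheory Pool.Agent.Helper47.RFn Pool.Agent.Helper36.RN
open scoped ContDiff

section

variable {n : ℕ} {I J : Type}

theorem sn_zero' (m : ℕ) : sn m (0 : XS n) = 0 := by simp [sn]

theorem sn_sum {ι : Type} (m : ℕ) (s : Finset ι) (g : ι → XS n) :
    sn m (∑ i ∈ s, g i) ≤ 2 ^ s.card * ∑ i ∈ s, sn m (g i) := by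
  classical
  induction s using Finset.induction_on with
  | empty => simp [sn_zero']
  | insert a s ha ih =>
    rw [Finset.sum_insert ha, Finset.sum_insert ha, Finset.card_insert_of_notMem ha]
    have h1 := sn_add_le m (g a) (∑ i ∈ s, g i)
    have h2 : (1:ℝ) ≤ 2 ^ s.card := one_le_pow₀ (by norm_num)
    have h3 := sn_nonneg m (g a)
    have h4 : sn m (g a) ≤ 2 ^ s.card * sn m (g a) := le_mul_of_one_le_left h3 h2
    rw [pow_succ]
    nlinarith

theorem sn_le_qq [Fintype I] [Fintype J] (m : ℕ) (y : I ⊕ J → XS n) (q : I ⊕ J) :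
    sn m (y q) ≤ qq m y :=
  Finset.single_le_sum (f := fun q => sn m (y q)) (fun _ _ => sn_nonneg _ _)
    (Finset.mem_univ q)

theorem qq_nonneg [Fintype I] [Fintype J] (m : ℕ) (y : I ⊕ J → XS n) : 0 ≤ qq m y :=
  Finset.sum_nonneg fun _ _ => sn_nonneg _ _

theorem qq_mono [Fintype I] [Fintype J] {m k : ℕ} (h : m ≤ k) (y : I ⊕ J → XS n) :
    qq m y ≤ qq k y :=
  Finset.sum_le_sum fun _ _ => sn_mono h _

/-- variables of the jet -/
abbrev ZJ (n : ℕ) (I J : Type) : Type := ((I ⊕ J) ⊕ (KK n × J)) ⊕ (KK n × I)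

/-- jet of `y = (u, v)` -/
noncomputable def jt (y : I ⊕ J → XS n) : ZJ n I J → XS n :=
  zj' (fun i => y (Sum.inl i)) fun j => y (Sum.inr j)

theorem jt_le [Fintype I] [Fintype J] (m : ℕ) (y : I ⊕ J → XS n) (q : ZJ n I J) :
    sn m (jt y q) ≤ qq (m + 1) y := by
  rcases q with ((i | j) | ⟨k, j⟩) | ⟨k, i⟩
  · exact (sn_mono (by omega) _).trans (sn_le_qq (m + 1) y (Sum.inl i))
  · exact (sn_mono (by omega) _).trans (sn_le_qq (m + 1) y (Sum.inr j))
  · exact (sn_Ld m k _).trans (sn_le_qq (m + 1) y (Sum.inr j))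
  · exact (sn_Ld m k _).trans (sn_le_qq (m + 1) y (Sum.inl i))

theorem jt_sub (y y' : I ⊕ J → XS n) (q : ZJ n I J) : jt (y - y') q = jt y q - jt y' q := by
  rcases q with ((i | j) | ⟨k, j⟩) | ⟨k, i⟩
  · rfl
  · rfl
  · exact map_sub (Ld k) _ _
  · exact map_sub (Ld k) _ _

/-- Lipschitz estimate for a polynomial of the jet -/
theorem lip_jt (hm : R_MVP) [Fintype I] [Fintype J]
    (p : MvPolynomial (ZJ n I J) ℝ) (k : ℕ) (L : ℝ) :
    ∃ C, 0 ≤ C ∧ ∀ y y' : I ⊕ J → XS n, qq (k + 2 * n + 3) y ≤ L → qq (k + 2 * n + 3) y' ≤ L →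
      sn k (MvPolynomial.aeval (jt y) p - MvPolynomial.aeval (jt y') p) ≤
        C * qq (k + 1) (y - y') := by
  obtain ⟨C, hC⟩ := (hm n (ZJ n I J) p).2.1 k L
  refine ⟨max C 0 * (Fintype.card (ZJ n I J) : ℝ), by positivity, fun y y' hy hy' => ?_⟩
  have h1 := hC (jt y) (jt y') (fun q => (jt_le (k + 2 * n + 2) y q).trans hy)
    (fun q => (jt_le (k + 2 * n + 2) y' q).trans hy')
  have h2 : ∑ q, sn k (jt y q - jt y' q) ≤ (Fintype.card (ZJ n I J) : ℝ) * qq (k + 1) (y - y') := by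
    have h3 : ∑ q, sn k (jt y q - jt y' q) ≤ ∑ _q : ZJ n I J, qq (k + 1) (y - y') := by
      refine Finset.sum_le_sum fun q _ => ?_
      rw [← jt_sub]
      exact jt_le k _ q
    rwa [Finset.sum_const, Finset.card_univ, nsmul_eq_mul] at h3
  have h4 : 0 ≤ ∑ q, sn k (jt y q - jt y' q) := Finset.sum_nonneg fun _ _ => sn_nonneg _ _
  calc sn k (MvPolynomial.aeval (jt y) p - MvPolynomial.aeval (jt y') p)
      ≤ C * ∑ q, sn k (jt y q - jt y' q) := h1
    _ ≤ max C 0 * ∑ q, sn k (jt y q - jt y' q) := mul_le_mul_of_nonneg_right (le_max_left _ _) h4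
    _ ≤ max C 0 * ((Fintype.card (ZJ n I J) : ℝ) * qq (k + 1) (y - y')) :=
        mul_le_mul_of_nonneg_left h2 (le_max_right _ _)
    _ = _ := by ring

/-- polynomial of the first components -/
noncomputable def pG (D : QLD n I J) (i : I) : MvPolynomial (ZJ n I J) ℝ :=
  MvPolynomial.rename Sum.inl (D.G i)

theorem pG_eq (D : QLD n I J) (i : I) (y : I ⊕ J → XS n) :
    MvPolynomial.aeval (jt y) (pG D i) = D.FF y (Sum.inl i) := by
  rw [pG, MvPolynomial.aeval_rename]
  rfl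

/-- polynomial of the fluxes -/
noncomputable def pF (D : QLD n I J) (p : KK n) (j : J) : MvPolynomial (ZJ n I J) ℝ :=
  (∑ q, MvPolynomial.rename (fun a => Sum.inl (Sum.inl (Sum.inl a))) (D.α p q) *
    MvPolynomial.X (Sum.inl (Sum.inr (q, j)))) +
    MvPolynomial.rename (fun a => Sum.inl (Sum.inl a)) (D.β p j)

theorem pF_eq (D : QLD n I J) (j : J) (y : I ⊕ J → XS n) :
    D.FF y (Sum.inr j) = ∑ p, Ld p (MvPolynomial.aeval (jt y) (pF D p j)) +
      MvPolynomial.aeval (jt y) (D.W j) := by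
  change D.FJ (fun i => y (Sum.inl i)) (fun j => y (Sum.inr j)) j = _
  rw [QLD.FJ]
  congr 1
  refine Finset.sum_congr rfl fun p _ => congrArg (Ld p) ?_
  rw [pF, map_add, map_sum, MvPolynomial.aeval_rename]
  have e1 : ∀ q, MvPolynomial.aeval (jt y)
      (MvPolynomial.rename (fun a => Sum.inl (Sum.inl (Sum.inl a))) (D.α p q) *
        MvPolynomial.X (Sum.inl (Sum.inr (q, j))) : MvPolynomial (ZJ n I J) ℝ) =
      MvPolynomial.aeval (fun i => y (Sum.inl i)) (D.α p q) * Ld q (y (Sum.inr j)) := by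
    intro q
    rw [map_mul, MvPolynomial.aeval_rename, MvPolynomial.aeval_X]
    rfl
  simp only [e1]
  congr 1

theorem comp_bound (hm : R_MVP) [Fintype I] [Fintype J]
    (D : QLD n I J) (m : ℕ) (L : ℝ) (q : I ⊕ J) :
    ∃ C, 0 ≤ C ∧ ∀ y y' : I ⊕ J → XS n, qq (m + 2 * n + 4) y ≤ L → qq (m + 2 * n + 4) y' ≤ L →
      sn m (D.FF y q - D.FF y' q) ≤ C * qq (m + 2) (y - y') := by
  rcases q with i | j
  · obtain ⟨C, hC0, hC⟩ := lip_jt hm (pG D i) m L
    refine ⟨C, hC0, fun y y' hy hy' => ?_⟩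
    have h1 := hC y y' ((qq_mono (by omega) y).trans hy) ((qq_mono (by omega) y').trans hy')
    rw [pG_eq, pG_eq] at h1
    exact h1.trans (mul_le_mul_of_nonneg_left (qq_mono (by omega) _) hC0)
  · have hF := fun p => lip_jt hm (pF D p j) (m + 1) L
    choose C hC0 hC using hF
    obtain ⟨C', hC'0, hC'⟩ := lip_jt hm (D.W j) m L
    have hS : 0 ≤ ∑ p, C p := Finset.sum_nonneg fun i _ => hC0 i
    refine ⟨2 * 2 ^ (Finset.univ : Finset (KK n)).card * ∑ p, C p + 2 * C', by positivity,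
      fun y y' hy hy' => ?_⟩
    have hy1 : qq (m + 1 + 2 * n + 3) y ≤ L := (qq_mono (by omega) y).trans hy
    have hy1' : qq (m + 1 + 2 * n + 3) y' ≤ L := (qq_mono (by omega) y').trans hy'
    have h1 : ∀ p, sn m (Ld p (MvPolynomial.aeval (jt y) (pF D p j)) -
        Ld p (MvPolynomial.aeval (jt y') (pF D p j))) ≤ C p * qq (m + 2) (y - y') := by
      intro p
      rw [← map_sub]
      exact (sn_Ld m p _).trans (hC p y y' hy1 hy1')
    have h2 : sn m (MvPolynomial.aeval (jt y) (D.W j) - MvPolynomial.aeval (jt y') (D.W j)) ≤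
        C' * qq (m + 2) (y - y') :=
      (hC' y y' ((qq_mono (by omega) y).trans hy) ((qq_mono (by omega) y').trans hy')).trans
        (mul_le_mul_of_nonneg_left (qq_mono (by omega) _) hC'0)
    have h3 : D.FF y (Sum.inr j) - D.FF y' (Sum.inr j) =
        (∑ p, (Ld p (MvPolynomial.aeval (jt y) (pF D p j)) -
          Ld p (MvPolynomial.aeval (jt y') (pF D p j)))) +
        (MvPolynomial.aeval (jt y) (D.W j) - MvPolynomial.aeval (jt y') (D.W j)) := by
      rw [pF_eq, pF_eq, Finset.sum_sub_distrib]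
      abel
    rw [h3]
    refine (sn_add_le m _ _).trans ?_
    have h4 := sn_sum m Finset.univ (fun p => Ld p (MvPolynomial.aeval (jt y) (pF D p j)) -
          Ld p (MvPolynomial.aeval (jt y') (pF D p j)))
    have h5 : ∑ p, sn m (Ld p (MvPolynomial.aeval (jt y) (pF D p j)) -
          Ld p (MvPolynomial.aeval (jt y') (pF D p j))) ≤ (∑ p, C p) * qq (m + 2) (y - y') := by
      rw [Finset.sum_mul]
      exact Finset.sum_le_sum fun p _ => h1 p
    have h6 : (0:ℝ) ≤ 2 ^ (Finset.univ : Finset (KK n)).card := by positivity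
    have h7 := mul_le_mul_of_nonneg_left h5 h6
    linarith

end

/-- Packet QF1 -/
theorem qf1 : G_QF1 := by
  intro hm n I J _ _ D m L
  have h := fun q => comp_bound hm D m L q
  choose C hC0 hC using h
  refine ⟨∑ q, C q, fun y y' hy hy' => ?_⟩
  rw [Finset.sum_mul]
  exact Finset.sum_le_sum fun q _ => hC q y y' hy hy'

end Pool.Agent.Helper20.RN
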